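import Pool.Agent.Lib.ALL_h94.Adj
import Pool.Agent.Lib.ALB.Kaehler

/-!
# `p`-coordinates from dual derivations

`k` perfect, `E / k` finitely generated of transcendence degree `card ι`, `d i (t j) = δ_ij`: then
`E / k(t)` is separable algebraic, and `E = ∑ t^α E^p`.
-/

set_option autoImplicit false

namespace Pool.Agent.TGLh28

open Module KaehlerDifferential
open Pool.Agent.ALLh94 (PExp mon pexp_of_sep_adjoin)

universe u

variable {k E : Type u} [Field k] [Field E] [Algebra k E] {ι : Type} [Fintype ι]
  [DecidableEq ι]

theorem span_of_dual [PerfectField k] [Algebra.EssFiniteType k E]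
    (htr : Algebra.trdeg k E = (Fintype.card ι : ℕ)) (t : ι → E) (d : ι → Derivation k E E)
    (hd : ∀ i j, d i (t j) = if i = j then 1 else 0) :
    Submodule.span E (D k E '' (Set.range t)) = ⊤ := by
  classical
  have hli : LinearIndependent E fun j => D k E (t j) := by
    rw [Fintype.linearIndependent_iff]
    intro g hg i
    have h1 := congrArg (d i).liftKaehlerDifferential hg
    rw [map_sum, map_zero] at h1
    simp only [map_smul, Derivation.liftKaehlerDifferential_comp_D, hd, smul_eq_mul] at h1
    simpa using h1
  have hle := ALB.finrank_kaehler_le (k := k) (K := E) (Fintype.card ι) htr.le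
  have h2 : finrank E (Submodule.span E (Set.range fun j => D k E (t j))) = Fintype.card ι :=
    finrank_span_eq_card hli
  rw [← Set.range_comp]
  refine Submodule.eq_top_of_finrank_eq ?_
  refine le_antisymm (Submodule.finrank_le _) ?_
  exact hle.trans h2.ge

/-- `E` is separable over `k(t)`. -/
theorem sep_of_dual [PerfectField k] [Algebra.EssFiniteType k E]
    (htr : Algebra.trdeg k E = (Fintype.card ι : ℕ)) (t : ι → E) (d : ι → Derivation k E E)
    (hd : ∀ i j, d i (t j) = if i = j then 1 else 0) :
    Algebra.IsSeparable (IntermediateField.adjoin k (Set.range t)) E :=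
  ALB.separable_of_span_D (k := k) (Set.range t) (span_of_dual htr t d hd)

/-- `E = ∑ t^α E^p`. -/
theorem pexp_of_dual {p : ℕ} [hp : Fact p.Prime] [CharP E p] [PerfectField k]
    [Algebra.EssFiniteType k E]
    (htr : Algebra.trdeg k E = (Fintype.card ι : ℕ)) (t : ι → E) (d : ι → Derivation k E E)
    (hd : ∀ i j, d i (t j) = if i = j then 1 else 0) :
    PExp p t (Set.univ : Set E) := by
  have hck : CharP k p := (RingHom.charP_iff (algebraMap k E) (algebraMap k E).injective p).2
    inferInstance
  have hk : ∀ c : k, ∃ d : k, d ^ p = c := by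
    intro c
    have hex : ExpChar k p := ExpChar.prime hp.out
    have hpr : PerfectRing k p := PerfectField.toPerfectRing p
    exact (bijective_frobenius k p).2 c
  exact pexp_of_sep_adjoin (k := k) hk t (sep_of_dual htr t d hd)

end Pool.Agent.TGLh28
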